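import Mathlib
import Pool.Agent.Run7.h767.Fir.Basic
import Pool.Agent.R166.Solid.Gauge
import Pool.Agent.Run7.h924.KeptAS

set_option autoImplicit false

/-!
# MP_5e7226_co: a criterion by the average second difference of the support function

Let `K` be any convex body in `ℝ^d`, `d ≥ 2`, and `o` an interior point; no symmetry is assumed. Let
`h(u) = max {⟨u, y - o⟩ : y ∈ K}` be the support function of `K` with respect to `o` and
`P = {h ≤ 1}` the polar body. For `s > 0` let

  `η(s)` be the average of `h(z + s v) + h(z - s v) - 2 h(z)` over `z, v ∈ P`.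

It measures how far `K` is from being strictly convex on average: for `z` in `P` and small `s` the
second difference is at most `s` times the width in the direction `v` of a small neighbourhood in `K`
of the face with the outer normal vector `z`. We prove, with `ρ = (η(s) + 1/(d+1)) / s`, that

1. `s(K, o) ≤ 1 + 13 d log(2d²+2d+1) 2^d exp(-1/(7680 ρ))`, and `s(K, o) < 2^d` if
   `19 d log(2d²+2d+1) exp(-1/(7680 ρ)) ≤ 1`;
2. if the faces of `K` cannot be separated from `o` by fewer than `2^d` hyperplanes (in particular for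
   every counterexample to the conjecture) then `η(s)` grows linearly in `s`, up to a logarithm of
   `d`: `η(s) > s / (7680 log(19 d log(2d²+2d+1))) - 1/(d+1)` for all `s > 0`.

For a strictly convex body `s(K, o) = d + 1`; here `K` may have large faces in all directions, only
an average matters.

The polar body has the gauge `h`. Its covering by translates is the theorem `AverageSmoothness` of
helper924 for the covering conjecture (`MP_eba1ef_gt`), and the translates of a covering are normal
vectors of separating hyperplanes.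
-/

namespace Pool.Agent.Results.MP_5e7226_co.AverageSecondDifferences

open MeasureTheory
open scoped InnerProductSpace

/-- The support function of `K` with respect to `o`. -/
noncomputable def supportAt {d : ℕ} (K : Set (EuclideanSpace ℝ (Fin d)))
    (o u : EuclideanSpace ℝ (Fin d)) : ℝ := sSup ((fun y => ⟪u, y - o⟫_ℝ) '' K)

/-- The polar body of `K` with respect to `o`. -/
def polarAt {d : ℕ} (K : Set (EuclideanSpace ℝ (Fin d))) (o : EuclideanSpace ℝ (Fin d)) :
    Set (EuclideanSpace ℝ (Fin d)) := {v | ∀ y ∈ K, ⟪v, y - o⟫_ℝ ≤ 1}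

/-- The average of `h(z + s v) + h(z - s v) - 2 h(z)` over `z`, `v` in the polar body, where `h` is
the support function of `K` with respect to `o`. -/
noncomputable def avgSecond {d : ℕ} (K : Set (EuclideanSpace ℝ (Fin d)))
    (o : EuclideanSpace ℝ (Fin d)) (s : ℝ) : ℝ :=
  (∫ z in polarAt K o, ∫ v in polarAt K o,
    (supportAt K o (z + s • v) + supportAt K o (z - s • v) - 2 * supportAt K o z))
    / (volume (polarAt K o)).toReal ^ 2

/-- `K` and `o` are separated by `H`: every face of `K` (the set of the points of `K` at which a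
functional `⟪u, ·⟫`, `u ≠ 0`, is maximal on `K`) is strictly separated from `o` by one of the
hyperplanes `{x | ⟪h.1, x⟫ = h.2}` with `h ∈ H`. -/
def SeparatesFaces {d : ℕ} (K : Set (EuclideanSpace ℝ (Fin d))) (o : EuclideanSpace ℝ (Fin d))
    (H : Finset (EuclideanSpace ℝ (Fin d) × ℝ)) : Prop :=
  (∀ h ∈ H, h.1 ≠ 0) ∧
    ∀ u x₀ : EuclideanSpace ℝ (Fin d), u ≠ 0 → x₀ ∈ K → (∀ y ∈ K, ⟪u, y⟫_ℝ ≤ ⟪u, x₀⟫_ℝ) →
      ∃ h ∈ H, ⟪h.1, o⟫_ℝ < h.2 ∧ ∀ x ∈ K, ⟪u, x⟫_ℝ = ⟪u, x₀⟫_ℝ → h.2 < ⟪h.1, x⟫_ℝ

/-- the gauge of the polar body is the support function -/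
theorem gauge_polar {d : ℕ} {K : Set (EuclideanSpace ℝ (Fin d))} (hKc : IsCompact K)
    {o : EuclideanSpace ℝ (Fin d)} (ho : o ∈ interior K) (u : EuclideanSpace ℝ (Fin d)) :
    gauge (polarAt K o) u = supportAt K o u := by
  have hoK : o ∈ K := interior_subset ho
  have e : supportAt K o u = Pool.Agent.Run7.h767.Fir.suppAt K o u := by
    unfold supportAt Pool.Agent.Run7.h767.Fir.suppAt Pool.Agent.Run7.h767.Fir.supp
    rw [Set.image_image]
  rw [e]
  have h0 : (0 : EuclideanSpace ℝ (Fin d)) ∈ interior (polarAt K o) :=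
    Pool.Agent.TH438.Hull.Pol.zero_mem_interior hKc
  have hc : IsCompact (polarAt K o) := Pool.Agent.TH438.Hull.Pol.isCompact ho
  have hv : Convex ℝ (polarAt K o) := Pool.Agent.TH438.Hull.Pol.convex K o
  have hne : ((fun y => y - o) '' K).Nonempty := ⟨_, o, hoK, rfl⟩
  have hkc := Pool.Agent.Run7.h767.Fir.suppAt_compact hKc o
  refine Pool.Agent.Run7.h767.Fir.eq_of_ball (fun x => gauge_nonneg x)
    (fun x => Pool.Agent.Run7.h767.Fir.supp_nonneg hkc ⟨o, hoK, sub_self o⟩ x)
    (fun c hc x => by rw [gauge_smul_of_nonneg hc, smul_eq_mul])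
    (fun c hc x => Pool.Agent.Run7.h767.Fir.supp_smul hkc hne hc x) (fun x => ?_) u
  refine Iff.trans ?_ (Pool.Agent.Run7.h767.Fir.suppAt_le_iff hKc ⟨o, hoK⟩).symm
  constructor
  · intro h
    exact Pool.Agent.R166.Solid.mem_of_gauge hv hc h0 h
  · intro h
    exact gauge_le_one_of_mem h

/-- **Main theorem.** -/
theorem result (d : ℕ) (hd : 2 ≤ d) (K : Set (EuclideanSpace ℝ (Fin d))) (hKc : IsCompact K)
    (o : EuclideanSpace ℝ (Fin d)) (ho : o ∈ interior K) (s : ℝ) (hs : 0 < s) :
    (∃ H : Finset (EuclideanSpace ℝ (Fin d) × ℝ), SeparatesFaces K o H ∧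
      (H.card : ℝ) ≤ 1 + 13 * d * Real.log (2 * d ^ 2 + 2 * d + 1) * 2 ^ d
        * Real.exp (-(s / (7680 * (avgSecond K o s + 1 / (d + 1))))) ∧
      (19 * d * Real.log (2 * d ^ 2 + 2 * d + 1)
        * Real.exp (-(s / (7680 * (avgSecond K o s + 1 / (d + 1))))) ≤ 1 → H.card < 2 ^ d)) ∧
    -- the second differences of the support function of a body with `s(K, o) ≥ 2^d`
    ((∀ H : Finset (EuclideanSpace ℝ (Fin d) × ℝ), SeparatesFaces K o H → 2 ^ d ≤ H.card) →
      s / (7680 * Real.log (19 * d * Real.log (2 * d ^ 2 + 2 * d + 1))) - 1 / (d + 1)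
        < avgSecond K o s) := by
  have h0 : (0 : EuclideanSpace ℝ (Fin d)) ∈ interior (polarAt K o) :=
    Pool.Agent.TH438.Hull.Pol.zero_mem_interior hKc
  have hc : IsCompact (polarAt K o) := Pool.Agent.TH438.Hull.Pol.isCompact ho
  have hv : Convex ℝ (polarAt K o) := Pool.Agent.TH438.Hull.Pol.convex K o
  have e : avgSecond K o s
      = Pool.Agent.Run7.h924.KeptAS.avgSmooth (polarAt K o) s := by
    unfold avgSecond Pool.Agent.Run7.h924.KeptAS.avgSmooth
    simp only [gauge_polar hKc ho]
  obtain ⟨-, ⟨T, hT1, hT2, hT3⟩, h4⟩ :=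
    Pool.Agent.Run7.h924.KeptAS.result d hd (polarAt K o) hv hc h0 s hs
  rw [← e] at hT2 hT3 h4
  obtain ⟨H, hH, hsep⟩ := Pool.Agent.H985.Sep.separate ho T hT1
  have hH' : (H.card : ℝ) ≤ T.card := by exact_mod_cast hH
  refine ⟨⟨H, hsep, hH'.trans hT2, fun h => lt_of_le_of_lt hH (hT3 h)⟩, fun hall => h4 ?_⟩
  intro T' hT'
  obtain ⟨H', hH', hsep'⟩ := Pool.Agent.H985.Sep.separate ho T' hT'
  exact (hall H' hsep').trans hH'

end Pool.Agent.Results.MP_5e7226_co.AverageSecondDifferences
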