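import Mathlib
import Pool.Agent.Run7.h533.AC.Dual2

set_option autoImplicit false

/-!
# MP_5e7226_co: convex bodies at a bounded distance from the ball; linked families of faces

Let `K` be a convex body in `ℝ^d` and `o` an interior point; no symmetry is assumed. Let
`P = {u : ⟪u, y - o⟫ ≤ 1 for all y ∈ K}` be the polar body, which consists of the (normalized)
outer normal vectors of `K`.

**Bodies at a bounded distance from the ball.** If `B(o, r) ⊆ K ⊆ B(o, D r)` then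
`s(K, o) ≤ q^d` for `d ≥ d₀`, where `q < 2` and `d₀` depend only on `D`, and `s(K, o) < 2^d` as soon
as `D ≤ a √(log₂ d)`, for every fixed `a < 1/2` and `d ≥ d₀(a)`. (The result
`RandomPairsAndRollingBalls` asked that `K` is a union of balls of radius `κ r`.) More generally let
`C` be a symmetric convex body every `n` points of which have a signed sum in `(1-δ) n C`. If
`C ⊆ P ⊆ D C` then `s(K, o) ≤ q^d` for `d ≥ d₀`, where `q < 2` and `d₀` depend only on `n, δ, D`.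

**Criteria for one body.** (a) If for all functionals `u_i, v_i ∈ P` (`i < N`) there are signs with
`∑ ±⟪u_i - v_i, y - o⟫ ≤ θ N` for all `y ∈ K` then
`s(K, o) ≤ 104 N² 2^N d log(d+1) 2^d exp(-(1-θ) d/(N 2^N))`. (b) Let a linked family of order `n` be
a family of functionals `u_j ∈ P` and points `y_j ∈ K` such that, for each `j`, the point `y_j` is
almost in the faces of all other `u_i`, but not in the face of `u_j`:
`1 - ⟪u_i, y_j - o⟫ ≤ ε (1 - ⟪u_j, y_j - o⟫)` for `i ≠ j`, and `1 - ⟪u_j, y_j - o⟫ ≥ θ`. If there is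
no linked family of order `k+1` then
`s(K, o) ≤ 104 k² (k+1) d log(d+1) 2^d exp(-(1-θ) ε d/(k 2^k))`.

**The structure of counterexamples.** So if the faces of `K` are not separated from `o` by fewer
than `2^d` hyperplanes then `K` has linked families of the order `α log₂ d` with `ε = d^(-β)` (for
`α + β < 1`, `θ < 1` and `d ≥ d₀(α, β, θ)`); for the cross-body there are such families with
`ε = 0`. Also, for some `N ≥ α log₂ d` the condition in (a) fails.

The proof: the faces of `K` are separated from `o` by `N` hyperplanes if `P` is covered by `N`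
translates of its interior (`Pool.Agent.H985.Sep`), and `P` is covered by the method of the hand-in
`BoundedDistanceToBall` of the problem `MP_eba1ef_gt`. Let `A` be a finite set of points of `P` such
that no translate of `l P`, `l` close to `1`, contains more than the share `q` of `A`. Then the
sum `w = x_1/2 + x_2/4 + ... + x_N/2^N + z/2^N` of random points `x_i` of `A` has a density bounded
by `(C 2^d q)^N` up to the probability `N/C`. So it is rarely in the translate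
`T = (1 - (1-θ) τ) P + τ y`, `y = (y_1 + ... + y_N)/N`, `τ = 2^(-N)`, of a smaller copy of `P`.
Choose also the `y_i` at random in `A`. The pairs `(x_i, y_i)` may be exchanged, so for some choice
of the `2N` points this holds for all `2^N` exchanges, and each time a functional which separates
`w` from `T` shows that `∑ (x_i - y_i)` is not in `θ N P`. For (b) one uses one point `y` only and
the `k+1` ways to choose it.
-/

namespace Pool.Agent.Results.MP_5e7226_co.BoundedDistanceFromBall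

open Metric Filter Topology
open scoped InnerProductSpace Pointwise
open Pool.Agent.Run7.h533.AC (sg simplexBound signBound)

/-- The polar body of `K` with respect to `o`. -/
def polarAt {d : ℕ} (K : Set (EuclideanSpace ℝ (Fin d))) (o : EuclideanSpace ℝ (Fin d)) :
    Set (EuclideanSpace ℝ (Fin d)) := {v | ∀ y ∈ K, ⟪v, y - o⟫_ℝ ≤ 1}

/-- The hyperplanes `{x | ⟪h.1, x⟫ = h.2}`, `h ∈ H`, separate all faces of `K` from `o`: for every
face of `K` (the set of the points of `K` at which a functional `⟪u, ·⟫`, `u ≠ 0`, is maximal on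
`K`) one of them strictly separates it from `o`. -/
def Separates {d : ℕ} (H : Finset (EuclideanSpace ℝ (Fin d) × ℝ))
    (K : Set (EuclideanSpace ℝ (Fin d))) (o : EuclideanSpace ℝ (Fin d)) : Prop :=
  (∀ h ∈ H, h.1 ≠ 0) ∧
    ∀ u x₀ : EuclideanSpace ℝ (Fin d), u ≠ 0 → x₀ ∈ K → (∀ y ∈ K, ⟪u, y⟫_ℝ ≤ ⟪u, x₀⟫_ℝ) →
      ∃ h ∈ H, ⟪h.1, o⟫_ℝ < h.2 ∧ ∀ x ∈ K, ⟪u, x⟫_ℝ = ⟪u, x₀⟫_ℝ → h.2 < ⟪h.1, x⟫_ℝ

/-- `s(K, o) ≤ N` -/
def SeparatedBy {d : ℕ} (K : Set (EuclideanSpace ℝ (Fin d))) (o : EuclideanSpace ℝ (Fin d))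
    (N : ℝ) : Prop :=
  ∃ H : Finset (EuclideanSpace ℝ (Fin d) × ℝ), (H.card : ℝ) ≤ N ∧ Separates H K o

/-- `s(K, o) < 2^d` -/
def SeparatedByFewer {d : ℕ} (K : Set (EuclideanSpace ℝ (Fin d)))
    (o : EuclideanSpace ℝ (Fin d)) : Prop :=
  ∃ H : Finset (EuclideanSpace ℝ (Fin d) × ℝ), H.card < 2 ^ d ∧ Separates H K o

/-- For all `u_i, v_i` in the polar body (`i < N`) there are signs `s_i` such that
`∑ s_i ⟪u_i - v_i, y - o⟫ ≤ θ N` for all `y ∈ K`. -/
def SmallSignedSums {d : ℕ} (N : ℕ) (θ : ℝ) (K : Set (EuclideanSpace ℝ (Fin d)))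
    (o : EuclideanSpace ℝ (Fin d)) : Prop :=
  ∀ u v : Fin N → EuclideanSpace ℝ (Fin d), (∀ i, u i ∈ polarAt K o) → (∀ i, v i ∈ polarAt K o) →
    ∃ s : Fin N → ℝ, (∀ i, s i = 1 ∨ s i = -1) ∧
      ∀ y ∈ K, ∑ i, s i * ⟪u i - v i, y - o⟫_ℝ ≤ θ * N

/-- Functionals `u_j` in the polar body and points `y_j` of `K` (`j < n`) such that
`1 - ⟪u_i, y_j - o⟫ ≤ ε (1 - ⟪u_j, y_j - o⟫)` for `i ≠ j`, where `1 - ⟪u_j, y_j - o⟫` is positive
and at least `θ`. -/
def LinkedFamily {d : ℕ} (n : ℕ) (ε θ : ℝ) (K : Set (EuclideanSpace ℝ (Fin d)))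
    (o : EuclideanSpace ℝ (Fin d)) : Prop :=
  ∃ u y : Fin n → EuclideanSpace ℝ (Fin d), (∀ j, u j ∈ polarAt K o) ∧ (∀ j, y j ∈ K) ∧
    ∀ j, 0 < 1 - ⟪u j, y j - o⟫_ℝ ∧ θ ≤ 1 - ⟪u j, y j - o⟫_ℝ ∧
      ∀ i, i ≠ j → 1 - ⟪u i, y j - o⟫_ℝ ≤ ε * (1 - ⟪u j, y j - o⟫_ℝ)

/-- `C` is a centrally symmetric convex body, and every `n` points of `C` have a signed sum in
`(1-δ) n C`. -/
def NoEllOne {d : ℕ} (n : ℕ) (δ : ℝ) (C : Set (EuclideanSpace ℝ (Fin d))) : Prop :=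
  Convex ℝ C ∧ IsCompact C ∧ (interior C).Nonempty ∧ (∀ x ∈ C, -x ∈ C) ∧
    ∀ x : Fin n → EuclideanSpace ℝ (Fin d), (∀ i, x i ∈ C) →
      ∃ s : Fin n → ℝ, (∀ i, s i = 1 ∨ s i = -1) ∧ ∑ i, s i • x i ∈ ((1 - δ) * n) • C

theorem sep_of_cover {d : ℕ} {K : Set (EuclideanSpace ℝ (Fin d))}
    {o : EuclideanSpace ℝ (Fin d)} (ho : o ∈ interior K) {N : ℝ}
    (h : ∃ T : Finset (EuclideanSpace ℝ (Fin d)),
      polarAt K o + {0} ⊆ ⋃ t ∈ T, (fun x => t + x) '' interior (polarAt K o + {0}) ∧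
      (T.card : ℝ) ≤ N) : SeparatedBy K o N := by
  obtain ⟨T, hT, hTc⟩ := h
  rw [Set.singleton_zero, add_zero] at hT
  obtain ⟨H, hH, hsep⟩ := Pool.Agent.H985.Sep.separate ho T hT
  have hH' : (H.card : ℝ) ≤ T.card := by exact_mod_cast hH
  exact ⟨H, hH'.trans hTc, hsep⟩

theorem sep_mono {d : ℕ} {K : Set (EuclideanSpace ℝ (Fin d))}
    {o : EuclideanSpace ℝ (Fin d)} {N M : ℝ} (h : SeparatedBy K o N) (hNM : N ≤ M) :
    SeparatedBy K o M := by
  obtain ⟨H, h1, h2⟩ := h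
  exact ⟨H, h1.trans hNM, h2⟩

theorem sep_few {d : ℕ} {K : Set (EuclideanSpace ℝ (Fin d))}
    {o : EuclideanSpace ℝ (Fin d)} {N : ℝ} (h : SeparatedBy K o N) (hN : N < 2 ^ d) :
    SeparatedByFewer K o := by
  obtain ⟨H, h1, h2⟩ := h
  refine ⟨H, ?_, h2⟩
  have : (H.card : ℝ) < 2 ^ d := lt_of_le_of_lt h1 hN
  exact_mod_cast this

theorem sg_sign (b : Bool) : sg b = 1 ∨ sg b = -1 := by
  cases b
  · exact Or.inr rfl
  · exact Or.inl rfl

theorem signs_of {d : ℕ} (hd : 1 ≤ d) {K : Set (EuclideanSpace ℝ (Fin d))} (hKc : IsCompact K)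
    {o : EuclideanSpace ℝ (Fin d)} (ho : o ∈ interior K) {N : ℕ} (hN : 1 ≤ N) {θ : ℝ}
    (hθ : 0 ≤ θ) {t : EuclideanSpace ℝ (Fin d)} (ht : t ∈ interior (polarAt K o))
    (h : ∀ x y : Fin N → EuclideanSpace ℝ (Fin d), (∀ i, x i ∈ polarAt K o) →
      (∀ i, y i ∈ polarAt K o) → ∃ b : Fin N → Bool, ∃ v ∈ polarAt K o,
        ∑ i, sg (b i) • (x i - y i) = (θ * N) • (v - t)) :
    SeparatedBy K o (signBound d N θ) :=
  sep_of_cover ho (Pool.Agent.Run7.h533.AC.sign_all hd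
    (Pool.Agent.H985.Sep.convex_polar K o) (Pool.Agent.H985.Sep.isCompact_polar ho) ht
    hN hθ h {0})

theorem signs {d : ℕ} (hd : 1 ≤ d) {K : Set (EuclideanSpace ℝ (Fin d))} (hKc : IsCompact K)
    {o : EuclideanSpace ℝ (Fin d)} (ho : o ∈ interior K) {N : ℕ} (hN : 1 ≤ N) {θ : ℝ}
    (hθ : 0 < θ) (h : SmallSignedSums N θ K o) : SeparatedBy K o (signBound d N θ) := by
  have hN' : (1 : ℝ) ≤ N := by exact_mod_cast hN
  refine signs_of hd hKc ho hN hθ.le (Pool.Agent.Run7.h533.AC.zero_int_polar hKc o) ?_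
  intro x y hx hy
  obtain ⟨s, hs, hsv⟩ := h x y hx hy
  obtain ⟨b, hb⟩ := Pool.Agent.Run7.h533.AC.bool_of_sign s hs
  have hθN : 0 < θ * N := by positivity
  refine ⟨b, (θ * N)⁻¹ • ∑ i, sg (b i) • (x i - y i), ?_, ?_⟩
  · intro z hz
    rw [real_inner_smul_left, inv_mul_le_iff₀ hθN, mul_one, sum_inner]
    refine le_trans (le_of_eq ?_) (hsv z hz)
    refine Finset.sum_congr rfl fun i _ => ?_
    rw [real_inner_smul_left, hb]
  · rw [sub_zero, smul_smul, mul_inv_cancel₀ hθN.ne', one_smul]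

theorem families {d : ℕ} (hd : 1 ≤ d) {K : Set (EuclideanSpace ℝ (Fin d))} (hK : Convex ℝ K)
    (hKc : IsCompact K) {o : EuclideanSpace ℝ (Fin d)} (ho : o ∈ interior K) {k : ℕ} (hk : 1 ≤ k)
    {ε θ : ℝ} (hε0 : 0 < ε) (hε1 : ε ≤ 1) (hθ : 0 ≤ θ) (h : ¬ LinkedFamily (k + 1) ε θ K o) :
    SeparatedBy K o (simplexBound d k (ε * (1 - θ))) := by
  refine sep_of_cover ho (Pool.Agent.Run7.h533.AC.simplex_all hd
    (Pool.Agent.H985.Sep.convex_polar K o) (Pool.Agent.H985.Sep.isCompact_polar ho)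
    (Pool.Agent.Run7.h533.AC.zero_int_polar hKc o) hk hε0 hε1 hθ ?_ {0})
  intro hS
  exact h (Pool.Agent.Run7.h533.AC.dual_simplex hK hKc (interior_subset ho) hS)

theorem signBound_lt {d k : ℕ} {θ : ℝ}
    (h : 104 * (k : ℝ) ^ 2 * (k + 1) * 2 ^ k * d * Real.log (d + 1)
        * Real.exp (-((1 - θ) * d / (k * 2 ^ k))) < 1) : signBound d k θ < 2 ^ d := by
  have h0 : 0 ≤ Real.log ((d : ℝ) + 1) := Real.log_nonneg (by
    have : (0 : ℝ) ≤ d := Nat.cast_nonneg d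
    linarith)
  have hk : (0 : ℝ) ≤ k := Nat.cast_nonneg k
  unfold signBound
  calc 104 * (k : ℝ) ^ 2 * 2 ^ k * d * Real.log (d + 1) * 2 ^ d
        * Real.exp (-((1 - θ) * d / (k * 2 ^ k)))
      = (104 * (k : ℝ) ^ 2 * 1 * 2 ^ k * d * Real.log (d + 1)
        * Real.exp (-((1 - θ) * d / (k * 2 ^ k)))) * 2 ^ d := by ring
    _ ≤ (104 * (k : ℝ) ^ 2 * (k + 1) * 2 ^ k * d * Real.log (d + 1)
        * Real.exp (-((1 - θ) * d / (k * 2 ^ k)))) * 2 ^ d := by
        gcongr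
        linarith
    _ < 1 * 2 ^ d := by
        apply mul_lt_mul_of_pos_right h
        positivity
    _ = 2 ^ d := one_mul _

theorem simplexBound_lt {d k : ℕ} {ε : ℝ}
    (h : 104 * (k : ℝ) ^ 2 * (k + 1) * 2 ^ k * d * Real.log (d + 1)
        * Real.exp (-(ε * d / (k * 2 ^ k))) < 1) : simplexBound d k ε < 2 ^ d := by
  have h0 : 0 ≤ Real.log ((d : ℝ) + 1) := Real.log_nonneg (by
    have : (0 : ℝ) ≤ d := Nat.cast_nonneg d
    linarith)
  have hk : (0 : ℝ) ≤ k := Nat.cast_nonneg k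
  unfold simplexBound
  calc 104 * (k : ℝ) ^ 2 * (k + 1) * d * Real.log (d + 1) * 2 ^ d
        * Real.exp (-(ε * d / (k * 2 ^ k)))
      = (104 * (k : ℝ) ^ 2 * (k + 1) * 1 * d * Real.log (d + 1)
        * Real.exp (-(ε * d / (k * 2 ^ k)))) * 2 ^ d := by ring
    _ ≤ (104 * (k : ℝ) ^ 2 * (k + 1) * 2 ^ k * d * Real.log (d + 1)
        * Real.exp (-(ε * d / (k * 2 ^ k)))) * 2 ^ d := by
        gcongr
        exact one_le_pow₀ (by norm_num)
    _ < 1 * 2 ^ d := by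
        apply mul_lt_mul_of_pos_right h
        positivity
    _ = 2 ^ d := one_mul _

theorem signBound_exp {k : ℕ} (hk : 1 ≤ k) {θ : ℝ} (hθ : θ < 1) :
    ∃ q : ℝ, 0 < q ∧ q < 2 ∧ ∃ N : ℕ, ∀ d : ℕ, N ≤ d → signBound d k θ ≤ q ^ d := by
  have hk' : (0 : ℝ) < k := by exact_mod_cast hk
  have h1 : 0 < 1 - θ := by linarith
  obtain ⟨q, hq0, hq2, N, hN⟩ := Pool.Agent.Run7.h533.AC.size_exp
    (C := 104 * (k : ℝ) ^ 2 * 2 ^ k) (c := (1 - θ) / (k * 2 ^ k)) (by positivity) (by positivity)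
  refine ⟨q, hq0, hq2, N, fun d hd => ?_⟩
  refine le_trans (le_of_eq ?_) (hN d hd)
  unfold signBound
  congr 2
  ring

theorem ball_int {d : ℕ} {K : Set (EuclideanSpace ℝ (Fin d))} {o : EuclideanSpace ℝ (Fin d)}
    {r : ℝ} (hr : 0 < r) (h1 : closedBall o r ⊆ K) : o ∈ interior K :=
  mem_interior_iff_mem_nhds.2 (Filter.mem_of_superset (closedBall_mem_nhds o hr) h1)

/-- the separation for a body between two balls -/
theorem ball_sep {d : ℕ} (hd : 1 ≤ d) {K : Set (EuclideanSpace ℝ (Fin d))} (hKc : IsCompact K)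
    {o : EuclideanSpace ℝ (Fin d)} {r D θ : ℝ} (hr : 0 < r) (hD : 0 < D) (hθ : 0 < θ)
    (h1 : closedBall o r ⊆ K) (h2 : K ⊆ closedBall o (D * r)) {N : ℕ} (hN : 1 ≤ N)
    (hND : 4 * D ^ 2 ≤ θ ^ 2 * N) : SeparatedBy K o (signBound d N θ) := by
  obtain ⟨g1, g2⟩ := Pool.Agent.Run7.h533.AC.polar_ball hr hD h1 h2
  have hρ : 0 < 1 / (D * r) := by positivity
  refine signs_of hd hKc (ball_int hr h1) hN hθ.le
    (Pool.Agent.Run7.h533.AC.zero_int_polar hKc o) ?_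
  intro x y hx hy
  exact Pool.Agent.Run7.h533.AC.signs_ball hρ hθ g1 g2 hN (by
    calc 4 * (D * (1 / (D * r))) ^ 2 = (4 * D ^ 2) * (1 / (D * r)) ^ 2 := by ring
      _ ≤ (θ ^ 2 * N) * (1 / (D * r)) ^ 2 := by gcongr) x y hx hy

/-- **Main theorem.** -/
theorem result :
    -- (1) `B(o, r) ⊆ K ⊆ B(o, D r)` with `D ≤ a √(log₂ d)`, `a < 1/2`
    (∀ a : ℝ, 0 ≤ a → a < 1 / 2 → ∃ d₀ : ℕ, ∀ d : ℕ, d₀ ≤ d →
      ∀ (K : Set (EuclideanSpace ℝ (Fin d))) (o : EuclideanSpace ℝ (Fin d)) (r : ℝ),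
        IsCompact K → 0 < r → closedBall o r ⊆ K →
        K ⊆ closedBall o (a * Real.sqrt (Real.logb 2 d) * r) → SeparatedByFewer K o) ∧
    -- (2) the distance `D` is bounded
    (∀ D : ℝ, 0 < D → ∃ q : ℝ, 0 < q ∧ q < 2 ∧ ∃ d₀ : ℕ, ∀ d : ℕ, d₀ ≤ d →
      ∀ (K : Set (EuclideanSpace ℝ (Fin d))) (o : EuclideanSpace ℝ (Fin d)) (r : ℝ),
        IsCompact K → 0 < r → closedBall o r ⊆ K → K ⊆ closedBall o (D * r) →
        SeparatedBy K o (q ^ d)) ∧
    -- (3) the polar body is at a bounded distance from a symmetric body without `ℓ₁ⁿ`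
    (∀ (n : ℕ) (δ D : ℝ), 1 ≤ n → 0 < δ → δ ≤ 1 → 0 ≤ D →
      ∃ q : ℝ, 0 < q ∧ q < 2 ∧ ∃ d₀ : ℕ, ∀ d : ℕ, d₀ ≤ d →
      ∀ (C K : Set (EuclideanSpace ℝ (Fin d))) (o : EuclideanSpace ℝ (Fin d)),
        NoEllOne n δ C → IsCompact K → o ∈ interior K → C ⊆ polarAt K o →
        polarAt K o ⊆ D • C → SeparatedBy K o (q ^ d)) ∧
    -- (4) criteria for one body
    (∀ (d : ℕ) (K : Set (EuclideanSpace ℝ (Fin d))) (o : EuclideanSpace ℝ (Fin d)), 1 ≤ d →
      Convex ℝ K → IsCompact K → o ∈ interior K →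
      (∀ (N : ℕ) (θ : ℝ), 1 ≤ N → 0 < θ → SmallSignedSums N θ K o →
        SeparatedBy K o (signBound d N θ)) ∧
      (∀ (k : ℕ) (ε θ : ℝ), 1 ≤ k → 0 < ε → ε ≤ 1 → 0 ≤ θ → ¬ LinkedFamily (k + 1) ε θ K o →
        SeparatedBy K o (simplexBound d k (ε * (1 - θ))))) ∧
    -- (5) the structure of bodies which need at least `2^d` hyperplanes
    (∀ α β θ : ℝ, 0 ≤ α → 0 ≤ β → α + β < 1 → 0 < θ → θ < 1 → ∃ d₀ : ℕ, ∀ d : ℕ, d₀ ≤ d →
      ∀ (K : Set (EuclideanSpace ℝ (Fin d))) (o : EuclideanSpace ℝ (Fin d)), Convex ℝ K →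
        IsCompact K → o ∈ interior K → ¬ SeparatedByFewer K o →
        (∃ n : ℕ, α * Real.logb 2 d ≤ n ∧ LinkedFamily n ((d : ℝ) ^ (-β)) θ K o) ∧
        (∃ N : ℕ, α * Real.logb 2 d ≤ N ∧ ¬ SmallSignedSums N θ K o)) := by
  refine ⟨?_, ?_, ?_, ?_, ?_⟩
  · intro a ha0 ha1
    set θ : ℝ := Real.sqrt ((1 + 4 * a ^ 2) / 2) with hθ
    have h4a : 4 * a ^ 2 < 1 := by nlinarith
    have hθ2 : θ ^ 2 = (1 + 4 * a ^ 2) / 2 := Real.sq_sqrt (by positivity)
    have hθ0 : 0 < θ := Real.sqrt_pos.2 (by positivity)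
    have hθ1 : θ < 1 := by
      by_contra hcon
      push Not at hcon
      have : 1 ≤ θ ^ 2 := one_le_pow₀ hcon
      linarith
    set α : ℝ := 4 * a ^ 2 / θ ^ 2 with hα
    have hα0 : 0 ≤ α := by positivity
    have hα1 : α < 1 := by
      rw [hα, div_lt_one (by positivity)]
      linarith
    obtain ⟨d₀, hd₀⟩ := Pool.Agent.Run7.h533.AC.size_log (α := α) (β := 0) (c := 1 - θ) le_rfl
      (by linarith) (by linarith)
    refine ⟨d₀ + 1, fun d hd K o r hKc hr h1 h2 => ?_⟩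
    have hd1 : (1 : ℝ) ≤ d := by
      have : 1 ≤ d := by omega
      exact_mod_cast this
    have hL : 0 ≤ Real.logb 2 d := Real.logb_nonneg (by norm_num) hd1
    have hD : 0 < a * Real.sqrt (Real.logb 2 d) := by
      -- the outer ball contains a ball of radius `r`
      have hne : Nonempty (Fin d) := ⟨⟨0, by omega⟩⟩
      have hnt : Nontrivial (EuclideanSpace ℝ (Fin d)) := inferInstance
      obtain ⟨e, he⟩ := exists_norm_eq (EuclideanSpace ℝ (Fin d)) hr.le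
      have h3 : o + e ∈ closedBall o (a * Real.sqrt (Real.logb 2 d) * r) := h2 (h1 (by
        rw [mem_closedBall, dist_eq_norm, add_sub_cancel_left, he]))
      rw [mem_closedBall, dist_eq_norm, add_sub_cancel_left, he] at h3
      by_contra hcon
      push Not at hcon
      have : a * Real.sqrt (Real.logb 2 d) * r ≤ 0 := mul_nonpos_of_nonpos_of_nonneg hcon hr.le
      linarith
    set N : ℕ := ⌈α * Real.logb 2 d⌉₊ + 1 with hN
    have hN1 : 1 ≤ N := by omega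
    have hN2 : α * Real.logb 2 d ≤ N := by
      have : α * Real.logb 2 d ≤ (⌈α * Real.logb 2 d⌉₊ : ℝ) := Nat.le_ceil _
      rw [hN]
      push_cast
      linarith
    have hN3 : (N : ℝ) ≤ α * Real.logb 2 d + 2 := by
      have : (⌈α * Real.logb 2 d⌉₊ : ℝ) < α * Real.logb 2 d + 1 :=
        Nat.ceil_lt_add_one (by positivity)
      rw [hN]
      push_cast
      linarith
    have h3 := hd₀ d (by omega) N hN1 hN3 (1 - θ) (by
      rw [neg_zero, Real.rpow_zero, mul_one])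
    refine sep_few (ball_sep (by omega) hKc hr hD hθ0 h1 h2 hN1 ?_) (signBound_lt h3)
    have e1 : 4 * (a * Real.sqrt (Real.logb 2 d)) ^ 2 = θ ^ 2 * (α * Real.logb 2 d) := by
      rw [mul_pow, Real.sq_sqrt hL, hα]
      field_simp
    rw [e1]
    gcongr
  · intro D hD
    set N : ℕ := ⌈16 * D ^ 2⌉₊ + 1 with hN
    have hN1 : 1 ≤ N := by omega
    have hN2 : 16 * D ^ 2 ≤ N := by
      have : 16 * D ^ 2 ≤ (⌈16 * D ^ 2⌉₊ : ℝ) := Nat.le_ceil _
      rw [hN]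
      push_cast
      linarith
    obtain ⟨q, hq0, hq2, d₀, hd₀⟩ := signBound_exp hN1 (show (1 / 2 : ℝ) < 1 by norm_num)
    refine ⟨q, hq0, hq2, d₀ + 1, fun d hd K o r hKc hr h1 h2 => ?_⟩
    refine sep_mono (ball_sep (by omega) hKc hr hD (show (0 : ℝ) < 1 / 2 by norm_num) h1 h2 hN1
      ?_) (hd₀ d (by omega))
    linarith
  · intro n δ D hn hδ0 hδ1 hD
    have hlim : Tendsto (fun j : ℕ => (1 - δ) ^ j * (2 * D)) atTop (𝓝 0) := by
      have := (tendsto_pow_atTop_nhds_zero_of_lt_one (show 0 ≤ 1 - δ by linarith)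
        (by linarith)).mul_const (2 * D)
      rwa [zero_mul] at this
    obtain ⟨j, hj⟩ := (hlim.eventually (gt_mem_nhds (show (0 : ℝ) < 1 / 2 by norm_num))).exists
    have hN1 : 1 ≤ n ^ j := Nat.one_le_pow _ _ hn
    obtain ⟨q, hq0, hq2, d₀, hd₀⟩ := signBound_exp hN1 (show (1 / 2 : ℝ) < 1 by norm_num)
    refine ⟨q, hq0, hq2, d₀ + 1, fun d hd C K o hC hKc ho h1 h2 => ?_⟩
    obtain ⟨hCv, hCc, hCi, hCs, H⟩ := hC
    refine sep_mono (signs_of (by omega) hKc ho hN1 (by norm_num)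
      (Pool.Agent.Run7.h533.AC.zero_int_polar hKc o) ?_) (hd₀ d (by omega))
    intro x y hx hy
    exact Pool.Agent.Run7.h533.AC.signs_body hCv hCc hCi hCs hn hδ1 H (c := 0) hD
      (show (0 : ℝ) < 1 / 2 by norm_num) (fun u hu => by rw [zero_add]; exact h1 hu)
      (fun v hv => by
        obtain ⟨u, hu, huv⟩ := h2 hv
        exact ⟨u, hu, by rw [zero_add]; exact huv.symm⟩) hj.le x y hx hy
  · intro d K o hd hK hKc ho
    exact ⟨fun N θ hN hθ h => signs hd hKc ho hN hθ h,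
      fun k ε θ hk hε0 hε1 hθ h => families hd hK hKc ho hk hε0 hε1 hθ h⟩
  · intro α β θ hα hβ hαβ hθ0 hθ1
    obtain ⟨d₀, hd₀⟩ := Pool.Agent.Run7.h533.AC.size_log (α := α) (β := β) (c := 1 - θ) hβ hαβ
      (by linarith)
    refine ⟨d₀ + 1, fun d hd K o hK hKc ho hfew => ?_⟩
    have hd1 : (1 : ℝ) ≤ d := by
      have : 1 ≤ d := by omega
      exact_mod_cast this
    have hd0 : (0 : ℝ) < d := by linarith
    have hL : 0 ≤ Real.logb 2 d := Real.logb_nonneg (by norm_num) hd1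
    set k : ℕ := ⌈α * Real.logb 2 d⌉₊ + 1 with hk
    have hk1 : 1 ≤ k := by omega
    have hk2 : α * Real.logb 2 d ≤ k := by
      have : α * Real.logb 2 d ≤ (⌈α * Real.logb 2 d⌉₊ : ℝ) := Nat.le_ceil _
      rw [hk]
      push_cast
      linarith
    have hk3 : (k : ℝ) ≤ α * Real.logb 2 d + 2 := by
      have : (⌈α * Real.logb 2 d⌉₊ : ℝ) < α * Real.logb 2 d + 1 :=
        Nat.ceil_lt_add_one (by positivity)
      rw [hk]
      push_cast
      linarith
    have hdβ : (d : ℝ) ^ (-β) ≤ 1 := Real.rpow_le_one_of_one_le_of_nonpos hd1 (by linarith)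
    have hdβ0 : 0 < (d : ℝ) ^ (-β) := Real.rpow_pos_of_pos hd0 _
    refine ⟨⟨k + 1, ?_, ?_⟩, ⟨k, hk2, ?_⟩⟩
    · push_cast
      linarith
    · by_contra hcon
      have h3 := hd₀ d (by omega) k hk1 hk3 ((d : ℝ) ^ (-β) * (1 - θ)) (by
        rw [mul_comm])
      exact hfew (sep_few (families (by omega) hK hKc ho hk1 hdβ0 hdβ hθ0.le hcon)
        (simplexBound_lt h3))
    · intro hcon
      have h3 := hd₀ d (by omega) k hk1 hk3 (1 - θ) (by
        have : 0 ≤ 1 - θ := by linarith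
        calc (1 - θ) * (d : ℝ) ^ (-β) ≤ (1 - θ) * 1 := by gcongr
          _ = 1 - θ := mul_one _)
      exact hfew (sep_few (signs (by omega) hKc ho hk1 hθ0 hcon) (signBound_lt h3))

end Pool.Agent.Results.MP_5e7226_co.BoundedDistanceFromBall
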