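import Mathlib
import Pool.Agent.Run7.h767.Blk.Basic
import Pool.Agent.Results.MP_5e7226_co.BlockwiseGaugeInvariant

set_option autoImplicit false

/-!
# MP_5e7226_co: bodies determined by interchangeable gauges of blocks of coordinates

Let `L_j` be a convex body in `ℝ^(m_j)`, `m_j ≥ 1`, with the interior point `0` and the gauge
`g_j`, for `j = 1, …, k`, and let `K` be a convex body in `ℝ^(m_1) × … × ℝ^(m_k)` with the interior
point `0` such that it depends only on `g_1 (x_1), …, g_k (x_k)` whether `x` belongs to `K`. Let the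
indices be divided into groups, and suppose that one may permute the numbers `g_j (x_j)` within each
group. The bodies `L_j` of the same group may be completely different, also in dimension. Let
`s (L_j, 0) ≤ N_j`, `N_j ≥ 2`, and suppose that the sum over the groups of the products of the
`1 / N_j` in the group is at most one. It is proved:

1. `s (K, 0) ≤ ∏ N_j`.
2. If the bodies `L_j` satisfy the conjectured bound (`N_j = 2 ^ m_j`) then so does `K`, if the sum
   over the groups of `2 ^ (-m)` is at most one, where `m` is the sum of the dimensions `m_j` in the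
   group.
3. For one group the condition on the sum is always satisfied: for all `k`, all bodies `L_j` and all
   symmetric norms of `ℝ^k`, (1) and (2) are true for the unit ball of the corresponding sum of
   the `L_j`, and more generally for all bodies `K` as above.

In the starting file `BlockwiseGaugeInvariant` it is assumed that `∑ 1 / N_j ≤ 1` (every group has
one element) or `k = 3`. The case `L_j = [-1, 1]` is the starting file `BlockSymmetric`.

The proof. It is shown that the polar body of `K` is of the same kind, for the polar bodies of the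
`L_j`: if `h_j` is the gauge of the polar body of `L_j`, `v` is in the polar body of `K`, `σ` is a
permutation which preserves the groups, `h_j (v'_j) = h_σ(j) (v_σ(j))` and `x ∈ K`, then
`∑ ⟪v'_j, x_j⟫ ≤ ∑ h_σ(j) (v_σ(j)) g_j (x_j) = ∑ ⟪v_σ(j), g_j (x_j) z_σ(j)⟫ ≤ 1`, where `z_i` is a
point of gauge one at which `⟪v_i, ·⟫` is maximal on `L_i`. So the polar body is a sum of the polars
of the `L_j` with respect to a convex solid set which is symmetric in the groups, and the theorem of
helper414 on coverings (`MP_eba1ef_gt.BlockSymmetricSums`) applies.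
-/

namespace Pool.Agent.Results.MP_5e7226_co.InterchangeableBlocks

open scoped InnerProductSpace
open Finset
open Pool.Agent.Results.MP_5e7226_co.BlockwiseGaugeInvariant (SeparatedBy cover_of_sep sep_of_cover)

/-- `K` depends only on the gauges of the `L j`, and these may be permuted within the groups: if
`x ∈ K`, `σ` is a permutation of the indices which preserves the groups given by `β`, and
`g_a (y_a) = g_σ(a) (x_σ(a))` for all `a`, then `y ∈ K`. -/
def GroupInvariant {k r : ℕ} (β : Fin k → Fin r) {m : Fin k → ℕ}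
    (L : ∀ j, Set (EuclideanSpace ℝ (Fin (m j))))
    (K : Set (PiLp 2 fun j => EuclideanSpace ℝ (Fin (m j)))) : Prop :=
  ∀ σ : Equiv.Perm (Fin k), (∀ a, β (σ a) = β a) → ∀ x ∈ K,
    ∀ y : PiLp 2 fun j => EuclideanSpace ℝ (Fin (m j)),
      (∀ a, gauge (L a) (y a) = gauge (L (σ a)) (x (σ a))) → y ∈ K

/-- **Main theorem.** Let `L j ⊆ ℝ^(m j)`, `m j ≥ 1`, be convex bodies with interior point `0`,
`j < k`, and let `K` be a compact set in the Euclidean product of the `ℝ^(m j)`, with interior
point `0`, which depends only on the gauges of the `L j`, and these may be permuted within the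
nonempty groups given by `β`.
1. If `N j ≥ 2` hyperplanes separate the faces of `L j` from `0` and the sum over the groups of the
   product of the `1 / N j` is at most one, then `∏ N j` hyperplanes separate the faces of `K`
   from `0`.
2. If `2 ^ m j` hyperplanes separate the faces of `L j` from `0` and the sum over the groups of
   `2 ^ (-m)`, `m` the sum of the `m j`, is at most one, then `2 ^ (∑ m j)` hyperplanes separate the
   faces of `K` from `0`.
3. If all indices are in one group then no condition on the sum is needed in (1) and (2). -/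
theorem result (k r : ℕ) (β : Fin k → Fin r) (hβ : Function.Surjective β) (m : Fin k → ℕ)
    (hm : ∀ j, 1 ≤ m j) (L : ∀ j, Set (EuclideanSpace ℝ (Fin (m j)))) (hL : ∀ j, Convex ℝ (L j))
    (hLc : ∀ j, IsCompact (L j)) (hL0 : ∀ j, 0 ∈ interior (L j))
    (K : Set (PiLp 2 fun j => EuclideanSpace ℝ (Fin (m j)))) (hKc : IsCompact K)
    (hK0 : 0 ∈ interior K) (hinv : GroupInvariant β L K) :
    (∀ N : Fin k → ℕ, (∀ j, 2 ≤ N j) → (∀ j, SeparatedBy (L j) 0 (N j)) →
      ∑ b, ∏ j ∈ univ.filter (fun j => β j = b), (1 : ℝ) / N j ≤ 1 →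
      SeparatedBy K 0 (∏ j, N j)) ∧
    ((∀ j, SeparatedBy (L j) 0 (2 ^ m j)) →
      ∑ b, (1 / 2 : ℝ) ^ (∑ j ∈ univ.filter (fun j => β j = b), m j) ≤ 1 →
      SeparatedBy K 0 (2 ^ ∑ j, m j)) ∧
    (r = 1 → (∀ N : Fin k → ℕ, (∀ j, 2 ≤ N j) → (∀ j, SeparatedBy (L j) 0 (N j)) →
        SeparatedBy K 0 (∏ j, N j)) ∧
      ((∀ j, SeparatedBy (L j) 0 (2 ^ m j)) → SeparatedBy K 0 (2 ^ ∑ j, m j))) := by
  classical
  have hnt : ∀ j, Nontrivial (EuclideanSpace ℝ (Fin (m j))) := fun j => by
    have : Nonempty (Fin (m j)) := ⟨⟨0, hm j⟩⟩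
    infer_instance
  have h1 : ∀ N : Fin k → ℕ, (∀ j, 2 ≤ N j) → (∀ j, SeparatedBy (L j) 0 (N j)) →
      ∑ b, ∏ j ∈ univ.filter (fun j => β j = b), (1 : ℝ) / N j ≤ 1 →
      SeparatedBy K 0 (∏ j, N j) := by
    intro N hN hs hsum
    have hcov := fun j => cover_of_sep (hm j) (hL j) (hLc j) (hL0 j) (hs j)
    obtain ⟨T, hT, h1⟩ := Pool.Agent.Run7.h767.Blk.block_pol hL hLc hL0 hKc hK0 β hβ hinv N hN
      hsum hcov
    exact sep_of_cover hKc hK0 T hT h1
  have h2 : (∀ j, SeparatedBy (L j) 0 (2 ^ m j)) →
      ∑ b, (1 / 2 : ℝ) ^ (∑ j ∈ univ.filter (fun j => β j = b), m j) ≤ 1 →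
      SeparatedBy K 0 (2 ^ ∑ j, m j) := by
    intro hs hsum
    have h3 := h1 (fun j => 2 ^ m j) (fun j => by
      calc 2 = 2 ^ 1 := (pow_one 2).symm
        _ ≤ 2 ^ m j := Nat.pow_le_pow_right (by norm_num) (hm j)) hs (by
      refine le_trans (le_of_eq (sum_congr rfl fun b _ => ?_)) hsum
      rw [← prod_pow_eq_pow_sum]
      refine prod_congr rfl fun j _ => ?_
      rw [Nat.cast_pow, Nat.cast_ofNat, one_div, one_div, inv_pow])
    rwa [prod_pow_eq_pow_sum] at h3
  refine ⟨h1, h2, fun hr => ?_⟩
  subst hr
  refine ⟨fun N hN hs => h1 N hN hs ?_, fun hs => h2 hs ?_⟩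
  · rw [Fin.sum_univ_one]
    refine prod_le_one (fun j _ => by positivity) fun j _ => ?_
    have h3 : (2 : ℝ) ≤ N j := by exact_mod_cast hN j
    rw [div_le_one (by linarith)]
    linarith
  · rw [Fin.sum_univ_one]
    exact pow_le_one₀ (by norm_num) (by norm_num)

end Pool.Agent.Results.MP_5e7226_co.InterchangeableBlocks
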