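import Mathlib
import Pool.Agent.Run7.h767.Fir.Norms

set_option autoImplicit false

/-!
# MP_5e7226_co: Minkowski, Firey, Orlicz and lattice sums of bodies of bounded dimension

Let `K` be a convex body in `ℝ^d` and `o` an interior point, `h(u) = max {⟨u, y - o⟩ : y ∈ K}` the
support function of `K` with respect to `o`. Suppose that `K - o` is a sum of compact sets `C_ω ∋ 0`
of dimension at most `n`, in the sense of a lattice norm `N` which is `q`-concave with constant one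
(`N(f)^q + N(g)^q ≤ N((|f|^q + |g|^q)^(1/q))^q`):

  `h(u) = N(ω ↦ h_{C_ω}(u))` for all `u`.

For instance `K` may be

* the Minkowski sum of any finite number of convex bodies of dimension at most `n` (`q = 1`), and
  `o` any interior point of `K`;
* the Firey sum `h^q = ∑ h_{C_j}^q` of such bodies;
* an Orlicz sum `h(u) = inf {λ > 0 : ∫ φ_ω(w(ω) h_{θ(ω)}(u) / λ) dμ ≤ 1}`, where
  `t ↦ φ_ω(t^(1/q))` is concave, a sum or integral in a mixed norm, and so on. For `n = 1` and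
  `q = 1` these are the zonoids.

There is no symmetry or smoothness, and no condition on the directions of the summands. Suppose that
`⟨x₀, o - y⟩ ≤ a` for all `y ∈ K`, where `x₀` is the centroid of the polar body of `K` with
respect to `o`. This is true if `K - o ⊆ -a (K - o)`, and with `a = 0` if `o` is the Santaló point of
`K`, or if `K` is symmetric about `o`. Then

  `s(K, o) ≤ 1 + 13 d log(2d²+2d+1) 2^d e^(-2s)`,
  `s = d^(1/(r+1)) / (5·10^6 (1+a) (n+r)^(3/2) r)`, `r = max(q,2)`,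

and `s(K, o) < 2^d` if `s ≥ 6` and `s ≥ log d`. So for given `n`, `q` and `a` the conjecture is
true, with strict inequality, for all these pairs `(K, o)` in all sufficiently high dimensions. For
`h(u) = N(⟨u, v_ω⟩)` (segments `C_ω = [-v_ω, v_ω]`) the constants are better.

The polar body of `K` with respect to `o` is `{u | N(ω ↦ h_{C_ω}(u)) ≤ 1}`. Its covering by translates
of its interior is the theorem of helper924 for the covering conjecture (`MP_eba1ef_gt`, hand-ins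
`LatticeSumsOfBodies` and `QConcaveLattices`), and the translates of a covering are the normal
vectors of the separating hyperplanes. Here the bodies of the present problem to which this applies
are described, with the possible positions of the point `o`.
-/

namespace Pool.Agent.Results.MP_5e7226_co.SumsOfLowDimensionalBodies

open MeasureTheory
open scoped InnerProductSpace
open Pool.Agent.Run7.h924.Lat (IsQLat IsFunNorm IsYoung)
open Pool.Agent.Run7.h767.Fir (supp suppAt IsSmall IsSumAt)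

universe u v w

/-- `K` and `o` are separated by `H`: every face of `K` (the set of the points of `K` at which a
functional `⟪u, ·⟫`, `u ≠ 0`, is maximal on `K`) is strictly separated from `o` by one of the
hyperplanes `{x | ⟪h.1, x⟫ = h.2}` with `h ∈ H`. -/
def SeparatesFaces {d : ℕ} (K : Set (EuclideanSpace ℝ (Fin d))) (o : EuclideanSpace ℝ (Fin d))
    (H : Finset (EuclideanSpace ℝ (Fin d) × ℝ)) : Prop :=
  (∀ h ∈ H, h.1 ≠ 0) ∧
    ∀ u x₀ : EuclideanSpace ℝ (Fin d), u ≠ 0 → x₀ ∈ K → (∀ y ∈ K, ⟪u, y⟫_ℝ ≤ ⟪u, x₀⟫_ℝ) →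
      ∃ h ∈ H, ⟪h.1, o⟫_ℝ < h.2 ∧ ∀ x ∈ K, ⟪u, x⟫_ℝ = ⟪u, x₀⟫_ℝ → h.2 < ⟪h.1, x⟫_ℝ

/-- `K` is a convex body and `o` is an interior point of `K`. -/
def IsBody {d : ℕ} (K : Set (EuclideanSpace ℝ (Fin d))) (o : EuclideanSpace ℝ (Fin d)) : Prop :=
  Convex ℝ K ∧ IsCompact K ∧ o ∈ interior K

/-- The polar body of `K` with respect to `o`. -/
def polarAt {d : ℕ} (K : Set (EuclideanSpace ℝ (Fin d))) (o : EuclideanSpace ℝ (Fin d)) :
    Set (EuclideanSpace ℝ (Fin d)) := {v | ∀ y ∈ K, ⟪v, y - o⟫_ℝ ≤ 1}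

/-- `⟨x₀, o - y⟩ ≤ a` on `K`, where `x₀` is the centroid of the polar body. -/
def IsCentred {d : ℕ} (K : Set (EuclideanSpace ℝ (Fin d))) (o : EuclideanSpace ℝ (Fin d))
    (a : ℝ) : Prop :=
  ∀ y ∈ K, ⟪⨍ z in polarAt K o, z, o - y⟫_ℝ ≤ a

/-- **Main theorem.** -/
theorem result :
    -- (1) the quantitative bound
    (∀ (d n : ℕ) (q a : ℝ), 2 ≤ d → 1 ≤ q → 0 ≤ a → ∀ (K : Set (EuclideanSpace ℝ (Fin d)))
      (o : EuclideanSpace ℝ (Fin d)), IsBody K o → IsSumAt.{u} n q K o → IsCentred K o a →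
      ∀ r s : ℝ, r = max q 2 →
      s = (d : ℝ) ^ (1 / (r + 1)) / (5000000 * (1 + a) * (n + r) ^ (3 / 2 : ℝ) * r) →
      ∃ H : Finset (EuclideanSpace ℝ (Fin d) × ℝ), SeparatesFaces K o H ∧
        (H.card : ℝ) ≤ 1 + 13 * d * Real.log (2 * d ^ 2 + 2 * d + 1) * 2 ^ d
          * Real.exp (-(2 * s)) ∧
        (6 ≤ s → Real.log d ≤ s → H.card < 2 ^ d)) ∧
    -- (2) the conjecture, with strict inequality, in high dimensions
    (∀ (n : ℕ) (q a : ℝ), 1 ≤ q → 0 ≤ a → ∃ d₀ : ℕ, ∀ d : ℕ, d₀ ≤ d →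
      ∀ (K : Set (EuclideanSpace ℝ (Fin d))) (o : EuclideanSpace ℝ (Fin d)), IsBody K o →
        IsSumAt.{u} n q K o → IsCentred K o a →
        ∃ H : Finset (EuclideanSpace ℝ (Fin d) × ℝ), SeparatesFaces K o H ∧ H.card < 2 ^ d) ∧
    -- (3) the position of the point `o`
    (∀ (d : ℕ) (K : Set (EuclideanSpace ℝ (Fin d))) (o : EuclideanSpace ℝ (Fin d)), IsBody K o →
      (∀ a : ℝ, 0 < a → (∀ x ∈ K, o - a⁻¹ • (x - o) ∈ K) → IsCentred K o a) ∧
      (⨍ z in polarAt K o, z = 0 → IsCentred K o 0) ∧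
      ((∀ x ∈ K, o - (x - o) ∈ K) → IsCentred K o 0)) ∧
    -- (4) Minkowski sums of any number of compact sets of dimension at most `n`
    (∀ (d n m : ℕ) (C : Fin m → Set (EuclideanSpace ℝ (Fin d))), (∀ j, IsCompact (C j)) →
      (∀ j, ∃ W : Submodule ℝ (EuclideanSpace ℝ (Fin d)), Module.finrank ℝ W ≤ n ∧
        ∀ x ∈ C j, ∀ y ∈ C j, x - y ∈ W) →
      ∀ (K : Set (EuclideanSpace ℝ (Fin d))) (o : EuclideanSpace ℝ (Fin d)), IsBody K o →
        (∀ x, x ∈ K ↔ ∃ g : Fin m → EuclideanSpace ℝ (Fin d),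
          (∀ j, g j ∈ C j) ∧ ∑ j, g j = x) → IsSumAt.{0} n 1 K o) ∧
    -- (5) Firey sums
    (∀ (d n m : ℕ) (q : ℝ), 1 ≤ q → ∀ C : Fin m → Set (EuclideanSpace ℝ (Fin d)),
      (∀ j, IsSmall n (C j)) →
      ∀ (K : Set (EuclideanSpace ℝ (Fin d))) (o : EuclideanSpace ℝ (Fin d)), IsBody K o →
        (∀ u, suppAt K o u ^ q = ∑ j, supp (C j) u ^ q) → IsSumAt.{0} n q K o) ∧
    -- (6) Orlicz sums and integrals
    (∀ (d n : ℕ) (q : ℝ), 1 ≤ q → ∀ (Ω : Type v) [MeasurableSpace Ω] (μ : Measure Ω)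
      (φ : Ω → ℝ → ℝ), IsYoung q φ → ∀ (Θ : Type w) [TopologicalSpace Θ] [CompactSpace Θ]
      [MeasurableSpace Θ] [BorelSpace Θ] (C : Θ → Set (EuclideanSpace ℝ (Fin d))),
      (∀ t, IsSmall n (C t)) → (∀ u, Continuous fun t => supp (C t) u) →
      ∀ (w : Ω → ℝ) (θ : Ω → Θ), Measurable w → Measurable θ → (∀ ω, 0 ≤ w ω) →
      Integrable (fun ω => φ ω (w ω)) μ →
      (∀ u, Integrable (fun ω => φ ω (w ω * supp (C (θ ω)) u)) μ) →
      ∀ (K : Set (EuclideanSpace ℝ (Fin d))) (o : EuclideanSpace ℝ (Fin d)), IsBody K o →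
        (∀ u, suppAt K o u ≤ 1 ↔ ∫ ω, φ ω (w ω * supp (C (θ ω)) u) ∂μ ≤ 1) →
        IsSumAt.{w} n q K o) ∧
    -- (7) sums with respect to a `q`-concave function norm
    (∀ (d n : ℕ) (q : ℝ), 1 ≤ q → ∀ (Ω : Type v) [MeasurableSpace Ω] (N : (Ω → ℝ) → ENNReal),
      IsFunNorm q N → ∀ (Θ : Type w) [TopologicalSpace Θ] [CompactSpace Θ]
      [MeasurableSpace Θ] [BorelSpace Θ] (C : Θ → Set (EuclideanSpace ℝ (Fin d))),
      (∀ t, IsSmall n (C t)) → (∀ u, Continuous fun t => supp (C t) u) →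
      ∀ (w : Ω → ℝ) (θ : Ω → Θ), Measurable w → Measurable θ → N w ≠ ⊤ →
      ∀ (K : Set (EuclideanSpace ℝ (Fin d))) (o : EuclideanSpace ℝ (Fin d)), IsBody K o →
        (∀ u, N (fun ω => w ω * supp (C (θ ω)) u) = ENNReal.ofReal (suppAt K o u)) →
        IsSumAt.{w} n q K o) ∧
    -- (8) better constants for sums of segments `[-v, v]`: `h(u) = N(⟨u, v⟩)`
    (∀ (d : ℕ) (q : ℝ), 2 ≤ d → 1 ≤ q → ∀ (K : Set (EuclideanSpace ℝ (Fin d)))
      (o : EuclideanSpace ℝ (Fin d)), IsBody K o →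
      ∀ (Ω : Type u) [TopologicalSpace Ω] [CompactSpace Ω] (N : C(Ω, ℝ) → ℝ) (v : Fin d → C(Ω, ℝ)),
      IsQLat q N → (∀ u, suppAt K o u = N (∑ i, u i • v i)) → ∀ r s : ℝ, r = max q 2 →
      s = (d : ℝ) ^ (1 / (r + 1)) / (202760 * (r + 1)) →
      ∃ H : Finset (EuclideanSpace ℝ (Fin d) × ℝ), SeparatesFaces K o H ∧
        (H.card : ℝ) ≤ 1 + 13 * d * Real.log (4 * d + 1) * 2 ^ d * Real.exp (-(2 * s)) ∧
        (5 ≤ s → Real.log d ≤ s → H.card < 2 ^ d)) := by
  have main : ∀ (d n : ℕ) (q a : ℝ), 2 ≤ d → 1 ≤ q → 0 ≤ a →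
      ∀ (K : Set (EuclideanSpace ℝ (Fin d)))
      (o : EuclideanSpace ℝ (Fin d)), IsBody K o → IsSumAt.{u} n q K o → IsCentred K o a →
      ∀ r s : ℝ, r = max q 2 →
      s = (d : ℝ) ^ (1 / (r + 1)) / (5000000 * (1 + a) * (n + r) ^ (3 / 2 : ℝ) * r) →
      ∃ H : Finset (EuclideanSpace ℝ (Fin d) × ℝ), SeparatesFaces K o H ∧
        (H.card : ℝ) ≤ 1 + 13 * d * Real.log (2 * d ^ 2 + 2 * d + 1) * 2 ^ d
          * Real.exp (-(2 * s)) ∧
        (6 ≤ s → Real.log d ≤ s → H.card < 2 ^ d) := by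
    rintro d n q a hd hq ha K o ⟨hK, hKc, ho⟩ ⟨Ω, _, _, N, C, F, L, hC, hF, hh⟩ hcen r s hr hs
    have hne : K.Nonempty := ⟨o, interior_subset ho⟩
    have hqr : q ≤ r := by rw [hr]; exact le_max_left _ _
    have h2r : 2 ≤ r := by rw [hr]; exact le_max_right _ _
    have hP : Pool.Agent.H985.Sep.polar K o = {x | N (F x) ≤ 1} := by
      rw [Pool.Agent.Run7.h767.Fir.polar_eq hKc hne]
      ext u
      show suppAt K o u ≤ 1 ↔ _
      rw [hh u]
      rfl
    have hb : Bornology.IsBounded (Pool.Agent.H985.Sep.polar K o) :=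
      (Pool.Agent.H985.Sep.isCompact_polar ho).isBounded
    have hg : gauge (Pool.Agent.H985.Sep.polar K o)
        (-⨍ z in Pool.Agent.H985.Sep.polar K o, z) ≤ a := by
      refine Pool.Agent.Run7.h767.Fir.gauge_polar_le hKc hne _ ha fun y hy => ?_
      have h1 := hcen y hy
      rw [inner_neg_left, ← inner_neg_right, neg_sub]
      exact h1
    obtain ⟨T, h1, h2, h3⟩ := Pool.Agent.Run7.h924.Sm.cover_sum
      (Pool.Agent.Run7.h767.Fir.famOf hC hF) (L.up (by linarith) hqr) hd h2r _ hP hb a ha hg s hs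
    obtain ⟨H, hH, hsep⟩ := Pool.Agent.H985.Sep.separate ho T h1
    have hH' : (H.card : ℝ) ≤ T.card := by exact_mod_cast hH
    exact ⟨H, hsep, hH'.trans h2, fun h5 h6 => lt_of_le_of_lt hH (h3 h5 h6)⟩
  refine ⟨main, ?_, ?_, ?_, ?_, ?_, ?_, ?_⟩
  · intro n q a hq ha
    obtain ⟨d₀, hd₀⟩ := Pool.Agent.Run7.h924.Sm.exists_dim n (max q 2) a (le_max_right _ _) ha
    refine ⟨max d₀ 2, fun d hd K o hK hS hcen => ?_⟩
    obtain ⟨h5, hlog⟩ := hd₀ d (le_trans (le_max_left _ _) hd)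
    obtain ⟨H, h1, -, h3⟩ :=
      main d n q a (le_trans (le_max_right _ _) hd) hq ha K o hK hS hcen _ _ rfl rfl
    exact ⟨H, h1, h3 h5 hlog⟩
  · rintro d K o ⟨hK, hKc, ho⟩
    have hmem : (⨍ z in polarAt K o, z) ∈ polarAt K o :=
      Pool.Agent.Run7.h767.Fir.centroid_mem hKc ho
    refine ⟨fun a ha h y hy => ?_, fun h y hy => ?_, fun h y hy => ?_⟩
    · have h1 := hmem _ (h y hy)
      rw [sub_sub_cancel_left, inner_neg_right, real_inner_smul_right, ← mul_neg,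
        ← inner_neg_right, neg_sub, inv_mul_le_iff₀ ha, mul_one] at h1
      exact h1
    · rw [h, inner_zero_left]
    · have hm : MeasurableSet (polarAt K o) :=
        (Pool.Agent.H985.Sep.isCompact_polar ho).measurableSet
      rw [Pool.Agent.Run7.h767.Fir.centroid_symm hm (Pool.Agent.Run7.h767.Fir.polar_symm h),
        inner_zero_left]
  · intro d n m C hC hn K o hK h
    exact Pool.Agent.Run7.h767.Fir.minkowski hK.2.1 (interior_subset hK.2.2) C hC hn h
  · intro d n m q hq C hC K o hK h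
    exact Pool.Agent.Run7.h767.Fir.firey hq hK.2.1 (interior_subset hK.2.2) C hC h
  · intro d n q hq Ω _ μ φ Y Θ _ _ _ _ C hC hcont w θ hw hθ hw0 hint0 hint K o hK h
    exact Pool.Agent.Run7.h767.Fir.orlicz Y hq C hC hcont hw hθ hw0 hint0 hint hK.2.1
      (interior_subset hK.2.2) h
  · intro d n q hq Ω _ N hN Θ _ _ _ _ C hC hcont w θ hw hθ hNw K o hK h
    exact Pool.Agent.Run7.h767.Fir.funnorm hN hq C hC hcont hw hθ hNw hK.2.1
      (interior_subset hK.2.2) h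
  · rintro d q hd hq K o ⟨hK, hKc, ho⟩ Ω _ _ N v L hh r s hr hs
    have hne : K.Nonempty := ⟨o, interior_subset ho⟩
    have hqr : q ≤ r := by rw [hr]; exact le_max_left _ _
    have h2r : 2 ≤ r := by rw [hr]; exact le_max_right _ _
    have hP : Pool.Agent.H985.Sep.polar K o = {x | N (∑ i, x i • v i) ≤ 1} := by
      rw [Pool.Agent.Run7.h767.Fir.polar_eq hKc hne]
      ext u
      show suppAt K o u ≤ 1 ↔ _
      rw [hh u]
      rfl
    have hb : Bornology.IsBounded (Pool.Agent.H985.Sep.polar K o) :=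
      (Pool.Agent.H985.Sep.isCompact_polar ho).isBounded
    obtain ⟨T, h1, h2, h3⟩ := Pool.Agent.Run7.h924.Lat.cover_lat (L.up (by linarith) hqr) v hd h2r
      _ hP hb s hs
    obtain ⟨H, hH, hsep⟩ := Pool.Agent.H985.Sep.separate ho T h1
    have hH' : (H.card : ℝ) ≤ T.card := by exact_mod_cast hH
    exact ⟨H, hsep, hH'.trans h2, fun h5 h6 => lt_of_le_of_lt hH (h3 h5 h6)⟩

end Pool.Agent.Results.MP_5e7226_co.SumsOfLowDimensionalBodies
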